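import Pool.Agent.H37.CC.Defs
import Pool.Agent.H88.CX.Loc1
import Pool.Agent.H25.CN.Wrd

/-!
# CCC, chapter LOCAL: the near symmetries and their inverses satisfy `Lo`
-/

set_option autoImplicit false

namespace Pool.Agent.H94.CL

open scoped Pointwise
open Pool.Agent.H37.CC Pool.Agent.H25.CN

section

variable {G H : Type} [Group G] [PartialOrder H] [Bas H] [MulAction G H] [BAct G H]

/-- the near symmetries and their inverses -/
def Tpm (G : Type) {H : Type} [Group G] [PartialOrder H] [Bas H] [MulAction G H] [BAct G H] (b R : ℕ)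
    (P : Set (Vtx H) × Set H) (y : Vtx H) : Set G := {γ | γ ∈ Tb G b R P y ∨ γ⁻¹ ∈ Tb G b R P y}

theorem tpm_sub {b ρ R : ℕ} {P : Set (Vtx H) × Set H} {y : Vtx H} (hy : y ∈ P.1) (hR : ρ + b ≤ R) :
    Tpm G b R P y ⊆ Tb G b ρ P y := by
  rintro γ (h | h)
  · exact Tb_mono le_rfl (by omega) h
  · have h1 := Tb_inv hy (show b ≤ R by omega) h
    rw [inv_inv] at h1
    exact Tb_mono le_rfl (by omega) h1

theorem pow_sub {b ρ : ℕ} {P : Set (Vtx H) × Set H} {y : Vtx H} {T : Set G} (hy : y ∈ P.1) (hT : T ⊆ Tb G b ρ P y) (m s : ℕ)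
    (hm : s + m * b ≤ ρ) : T ^ m ⊆ Tb G (m * b) s P y := by
  induction m generalizing s with
  | zero =>
    intro γ hγ
    rw [pow_zero, Set.mem_one] at hγ
    rw [hγ]
    exact one_mem_Tb _ _ hy
  | succ m ih =>
    rw [pow_succ]
    rintro _ ⟨γ, hγ, t, ht, rfl⟩
    have e : (m + 1) * b = m * b + b := by ring
    rw [e] at hm ⊢
    exact Tb_mul (ih (s + b) (by omega) hγ) (hT ht) (by omega) (by omega) le_rfl

theorem lo_of {b ρ R K : ℕ} {P : Set (Vtx H) × Set H} {y : Vtx H} (hy : y ∈ P.1) (hR : ρ + b ≤ R) (hK : K * b ≤ ρ) :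
    Lo P y (Tpm G b R P y) K where
  one := Or.inl (one_mem_Tb _ _ hy)
  inv := by
    rintro t (h | h)
    · right
      rwa [inv_inv]
    · exact Or.inl h
  pt := by
    intro γ hγ
    exact (pow_sub hy (tpm_sub hy hR) K 0 (by omega) hγ).1
  mv := by
    rintro t ht w hw ⟨α, hα, hs⟩
    have h1 := pow_sub hy (tpm_sub hy hR) K 0 (by omega) hα
    exact (Tb_wall (tpm_sub hy hR ht) hK hw ⟨α • y, h1.1, h1.2.1, hs⟩).1

end

/-- LOCAL, final statement -/
theorem local_main (n N : ℕ) : ∃ κ Q : ℕ, 0 < Q ∧ ∀ (G H : Type) [Group G] [PartialOrder H] [Bas H]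
    [MulAction G H] [BAct G H], Dim H n → BF G H N → ∀ (P : Set (Vtx H) × Set H), Rgn P → ∀ y ∈ P.1, ∀ b r : ℕ,
      κ * (b + 1) ≤ r →
        (∀ x ∈ Tb G b r P y, ∀ z ∈ Tb G b r P y, x ^ Q * z ^ Q = z ^ Q * x ^ Q) ∧
        ((∀ γ ∈ Tb G (2 * n * b) r P y, IsOfFinOrder γ) →
          ((Subgroup.closure (Tb G b (r + (2 * n + 1) * b) P y) : Subgroup G) : Set G).encard ≤ N) := by
  refine ⟨K0 n N + 2, n.factorial * N.factorial, Nat.mul_pos n.factorial_pos N.factorial_pos, ?_⟩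
  intro G H _ _ _ _ _ hd hN P hP y hy b r hr
  have e1 : (K0 n N + 2) * (b + 1) = K0 n N * b + b + b + (K0 n N + 2) := by ring
  rw [e1] at hr
  refine ⟨?_, ?_⟩
  · intro x hx z hz
    have hL : Lo P y (Tpm G b r P y) (K0 n N) := lo_of hy (ρ := r - b) (by omega) (by omega)
    exact commute_main hL hP hd hN le_rfl (Or.inl hx) (Or.inl hz)
  · intro ho
    have e2 : (2 * n + 1) * b = 2 * n * b + b := by ring
    have hL : Lo P y (Tpm G b (r + (2 * n + 1) * b) P y) (2 * n + 1) :=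
      lo_of hy (ρ := r + 2 * n * b) (by omega) (by omega)
    have h1 := finite_main hL hP hd hN le_rfl (by
      intro γ hγ
      exact ho γ (pow_sub hy (tpm_sub hy (show (r + 2 * n * b) + b ≤ r + (2 * n + 1) * b by omega)) (2 * n) r le_rfl hγ))
    refine le_trans (Set.encard_le_encard ?_) h1
    exact Subgroup.closure_mono fun γ hγ => Or.inl hγ

end Pool.Agent.H94.CL
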