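import Pool.Agent.H94.CL.Loc
import Pool.Agent.H37.CD.Fix
import Pool.Agent.H25.CN.Wrd2

/-!
# CCA, chapter LOCAL: the final statement of version 2
-/

set_option autoImplicit false

namespace Pool.Agent.H94.CL

open scoped Pointwise
open Pool.Agent.H37.CC Pool.Agent.H37.CD Pool.Agent.H25.CN

/-- LOCAL, final statement of version 2 -/
theorem local_main2 (n k N : ℕ) : ∃ κ Q : ℕ, 0 < Q ∧ ∀ (G H : Type) [Group G] [PartialOrder H] [Bas H]
    [MulAction G H] [BAct G H], Dim H n → Acy G H k N → ∀ (P : Set (Vtx H) × Set H), Rgn P → ∀ y ∈ P.1, ∀ b r : ℕ,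
      κ * (b + 1) ^ 2 ≤ r →
        ((∃ γ ∈ Tb G b r P y, Lx H γ) →
          ∀ x ∈ Tb G b r P y, ∀ z ∈ Tb G b r P y, x ^ Q * z ^ Q = z ^ Q * x ^ Q) ∧
        ((∀ γ ∈ Tb G (2 * n * b) r P y, ¬ Lx H γ) →
          Ell H (Subgroup.closure (Tb G b (r + (2 * n + 1) * b) P y))) := by
  refine ⟨K1 n k N + 2, n.factorial * ((2 * n).factorial * N).factorial, Nat.mul_pos n.factorial_pos (Nat.factorial_pos _), ?_⟩
  intro G H _ _ _ _ _ hd hA P hP y hy b r hr
  have e1 : (K1 n k N + 2) * (b + 1) ^ 2 = K1 n k N * (b + 1) * b + K1 n k N * (b + 1) + 2 * (b * b) + b * 3 + b + 2 := by ring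
  rw [e1] at hr
  refine ⟨?_, ?_⟩
  · rintro ⟨g, hg, hgx⟩ x hx z hz
    have hL : Lo P y (Tpm G b r P y) (K1 n k N * (b + 1)) := lo_of hy (ρ := r - b) (by omega) (by omega)
    have hD : ∀ t ∈ Tpm G b r P y, ds y (t • y) ≤ b := fun t ht =>
      (tpm_sub hy (show (r - b) + b ≤ r by omega) ht).2.1
    exact commute2 hL hP hd hA hD ⟨g, Or.inl hg, hgx⟩ le_rfl (Or.inl hx) (Or.inl hz)
  · intro ho
    have e2 : (2 * n + 1) * b = 2 * n * b + b := by ring
    have hL : Lo P y (Tpm G b (r + (2 * n + 1) * b) P y) (2 * n + 1) :=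
      lo_of hy (ρ := r + 2 * n * b) (by omega) (by omega)
    obtain ⟨M, hM⟩ := ell2 hL hP hd le_rfl (by
      intro γ hγ
      exact ho γ (pow_sub hy (tpm_sub hy (show (r + 2 * n * b) + b ≤ r + (2 * n + 1) * b by omega)) (2 * n) r le_rfl hγ))
    exact ⟨M, fun b hb => hM b (Subgroup.closure_mono (fun γ hγ => Or.inl hγ) hb)⟩

end Pool.Agent.H94.CL
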