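import Pool.Agent.H37.CC.Defs

/-!
# CCC, chapter LOCAL: (3.8), bounded orbits
-/

set_option autoImplicit false

namespace Pool.Agent.H94.CL

open scoped Pointwise
open Pool.Agent.H37.CC

variable {G H : Type} [Group G] [PartialOrder H] [Bas H] [MulAction G H] [BAct G H]

theorem spt_smul {g : G} {w : H} {y z : Vtx H} : Spt (g • w) (g • y) (g • z) ↔ Spt w y z := by
  unfold Spt
  rw [smul_mem_smul, smul_mem_smul]

theorem spt_inv {g : G} {w : H} {y z : Vtx H} : Spt w (g • y) (g • z) ↔ Spt (g⁻¹ • w) y z := by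
  unfold Spt
  rw [mem_smul, mem_smul]

theorem spt_tri {H : Type} [PartialOrder H] [Bas H] {w : H} {x y z : Vtx H} (h : Spt w x z) : Spt w x y ∨ Spt w y z := by
  unfold Spt at *
  tauto

theorem spt_comm {H : Type} [PartialOrder H] [Bas H] {w : H} {y z : Vtx H} : Spt w y z ↔ Spt w z y := by
  unfold Spt
  tauto

theorem spt_fin {H : Type} [PartialOrder H] [Bas H] (y z : Vtx H) : {w : H | Spt w y z}.Finite := by
  refine ((diff_fin y z).union (diff_fin z y)).subset ?_
  intro w hw
  have hw' : Spt w y z := hw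
  unfold Spt at hw'
  by_cases h1 : w ∈ y.U
  · by_cases h2 : w ∈ z.U
    · exact absurd (by tauto) hw'
    · exact Or.inr ⟨h1, h2⟩
  · by_cases h2 : w ∈ z.U
    · exact Or.inl ⟨h2, h1⟩
    · exact absurd (by tauto) hw'

theorem crs_smul {g : G} {h k : H} : Crs (g • h) (g • k) ↔ Crs h k := by
  unfold Crs
  rw [← smul_st, smul_le, smul_le, smul_le, smul_le]

/-- an increasing chain of finite sets which grows at every step -/
theorem chain_stop {A : Type} (O : ℕ → Set A) (hO : ∀ i, O i ⊆ O (i + 1)) (n : ℕ) (hf : (O n).Finite) (h0 : (O 0).Nonempty)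
    (hc : (O n).ncard ≤ n) : ∃ i < n, O (i + 1) = O i := by
  by_contra hcon
  push Not at hcon
  have hmono : ∀ i, i ≤ n → O i ⊆ O n := by
    intro i hi
    exact monotone_nat_of_le_succ hO hi
  have key : ∀ i, i ≤ n → i + 1 ≤ (O i).ncard := by
    intro i
    induction i with
    | zero =>
      intro _
      have := (Set.ncard_pos (hf.subset (hmono 0 (Nat.zero_le _)))).2 h0
      omega
    | succ i ih =>
      intro hi
      have h1 := ih (by omega)
      have h2 : O i ⊂ O (i + 1) := lt_of_le_of_ne (hO i) (fun e => hcon i (by omega) e.symm)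
      have h3 := Set.ncard_lt_ncard h2 (hf.subset (hmono (i + 1) hi))
      omega
  have := key n le_rfl
  omega

/-- the orbit of a half-space which is fixed or crossed by all short products -/
theorem orb_fin {n : ℕ} (hd : Dim H n) {T : Set G} (h1 : (1 : G) ∈ T) (hs : ∀ t ∈ T, t⁻¹ ∈ T) (hTf : T.Finite)
    (w : H) (hc : ∀ γ ∈ T ^ (2 * n), γ • w = w ∨ Crs (γ • w) w) :
    ((fun γ : G => γ • w) '' ((Subgroup.closure T : Subgroup G) : Set G)).Finite := by
  classical
  have hinv : T⁻¹ = T := by
    ext t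
    constructor
    · intro ht
      have := hs _ (Set.mem_inv.1 ht)
      rwa [inv_inv] at this
    · intro ht
      exact Set.mem_inv.2 (hs t ht)
  have hpf : ∀ i, (T ^ i).Finite := by
    intro i
    induction i with
    | zero =>
      rw [pow_zero]
      exact Set.finite_one
    | succ i ih =>
      rw [pow_succ]
      exact ih.mul hTf
  let O : ℕ → Set H := fun i => (fun γ : G => γ • w) '' (T ^ i)
  have hO : ∀ i, O i ⊆ O (i + 1) := by
    intro i
    apply Set.image_mono
    exact Set.pow_subset_pow_right h1 (by omega)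
  have hf : ∀ i, (O i).Finite := fun i => (hpf i).image _
  have hcard : (O n).ncard ≤ n := by
    have h2 := hd (hf n).toFinset (by
      intro a ha b hb hab
      rw [Set.Finite.mem_toFinset] at ha hb
      obtain ⟨γ, hγ, rfl⟩ := ha
      obtain ⟨δ, hδ, rfl⟩ := hb
      have h3 : δ⁻¹ * γ ∈ T ^ (2 * n) := by
        rw [two_mul, pow_add]
        refine Set.mul_mem_mul ?_ hγ
        have : δ⁻¹ ∈ (T ^ n)⁻¹ := by
          rw [Set.mem_inv, inv_inv]
          exact hδ
        rwa [← inv_pow, hinv] at this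
      rcases hc _ h3 with h4 | h4
      · exfalso
        apply hab
        show γ • w = δ • w
        have h5 : δ • ((δ⁻¹ * γ) • w) = δ • w := by rw [h4]
        rwa [smul_smul, mul_inv_cancel_left] at h5
      · have h5 := (crs_smul (g := δ)).2 h4
        rwa [smul_smul, mul_inv_cancel_left] at h5)
    rwa [← Set.ncard_eq_toFinset_card (O n) (hf n)] at h2
  obtain ⟨i, hi, he⟩ := chain_stop O hO n (hf n) ⟨w, 1, by rw [pow_zero]; rfl, one_smul G w⟩ hcard
  have hst : ∀ t ∈ T, ∀ v ∈ O i, t • v ∈ O i := by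
    rintro t ht v ⟨γ, hγ, rfl⟩
    rw [← he]
    refine ⟨t * γ, ?_, ?_⟩
    · rw [pow_succ']
      exact Set.mul_mem_mul ht hγ
    · show (t * γ) • w = t • γ • w
      rw [mul_smul]
  have hcl : ∀ g ∈ Subgroup.closure T, ∀ v ∈ O i, g • v ∈ O i := by
    intro g hg
    refine Subgroup.closure_induction (p := fun g _ => ∀ v ∈ O i, g • v ∈ O i) ?_ ?_ ?_ ?_ hg
    · intro t ht
      exact hst t ht
    · intro v hv
      rwa [one_smul]
    · intro a b _ _ ha hb v hv
      rw [mul_smul]
      exact ha _ (hb v hv)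
    · intro a _ ha v hv
      have hinj : Function.Injective (fun v : H => a • v) := MulAction.injective a
      have himg : (fun v : H => a • v) '' (O i) ⊆ O i := by
        rintro _ ⟨u, hu, rfl⟩
        exact ha u hu
      have heq : (fun v : H => a • v) '' (O i) = O i := by
        apply Set.eq_of_subset_of_ncard_le himg _ (hf i)
        rw [Set.ncard_image_of_injective _ hinj]
      rw [← heq] at hv
      obtain ⟨u, hu, hv'⟩ := hv
      have : a⁻¹ • v = u := by
        rw [← hv']
        exact inv_smul_smul a u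
      rwa [this]
  refine (hf i).subset ?_
  rintro _ ⟨g, hg, rfl⟩
  exact hcl g hg w (monotone_nat_of_le_succ hO (Nat.zero_le i) ⟨1, by rw [pow_zero]; rfl, one_smul G w⟩)

/-- (3.8): `T` is finite, symmetric, contains `1`; the products of `2n` elements of `T` fix or cross every half-space which separates `y`
from some `t • y`, `t ∈ T`. No region is needed. -/
theorem bdo {n N : ℕ} (hd : Dim H n) (hb : BF G H N) {T : Set G} (hf : T.Finite) (h1 : (1 : G) ∈ T) (hs : ∀ t ∈ T, t⁻¹ ∈ T)
    (y : Vtx H) (hc : ∀ t ∈ T, ∀ w : H, Spt w y (t • y) → ∀ γ ∈ T ^ (2 * n), γ • w = w ∨ Crs (γ • w) w) :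
    ((Subgroup.closure T : Subgroup G) : Set G).encard ≤ N := by
  classical
  set C : Subgroup G := Subgroup.closure T with hC
  let L : Set H := {w | ∃ t ∈ T, Spt w y (t • y)}
  have hLf : L.Finite := by
    have : L ⊆ ⋃ t ∈ T, {w : H | Spt w y (t • y)} := by
      rintro w ⟨t, ht, hw⟩
      exact Set.mem_biUnion ht hw
    exact (hf.biUnion (fun t _ => spt_fin y (t • y))).subset this
  let K : Set H := {w | ∃ g ∈ C, ∃ v ∈ L, w = g • v}
  have hKf : K.Finite := by
    have : K ⊆ ⋃ v ∈ L, ((fun γ : G => γ • v) '' (C : Set G)) := by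
      rintro w ⟨g, hg, v, hv, rfl⟩
      exact Set.mem_biUnion hv ⟨g, hg, rfl⟩
    refine (hLf.biUnion (fun v hv => ?_)).subset this
    obtain ⟨t, ht, hv⟩ := hv
    exact orb_fin hd h1 hs hf v (hc t ht v hv)
  have hKi : ∀ g ∈ C, ∀ v ∈ K, g • v ∈ K := by
    rintro g hg v ⟨a, ha, u, hu, rfl⟩
    exact ⟨g * a, C.mul_mem hg ha, u, hu, by rw [mul_smul]⟩
  have hsep : ∀ g ∈ C, ∀ w : H, Spt w y (g • y) → w ∈ K := by
    intro g hg
    refine Subgroup.closure_induction (p := fun g _ => ∀ w : H, Spt w y (g • y) → w ∈ K) ?_ ?_ ?_ ?_ hg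
    · intro t ht w hw
      exact ⟨1, C.one_mem, w, ⟨t, ht, hw⟩, (one_smul G w).symm⟩
    · intro w hw
      rw [one_smul] at hw
      exact absurd Iff.rfl hw
    · intro a b ha hb iha ihb w hw
      rcases spt_tri (y := a • y) hw with h2 | h2
      · exact iha w h2
      · rw [mul_smul, spt_inv] at h2
        have h3 := hKi a ha _ (ihb _ h2)
        rwa [smul_inv_smul] at h3
    · intro a ha iha w hw
      have h2 : Spt (a • w) y (a • y) := by
        have h3 := (spt_smul (g := a)).2 hw
        rw [smul_inv_smul] at h3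
        exact spt_comm.1 h3
      have h3 := hKi a⁻¹ (C.inv_mem ha) _ (iha _ h2)
      rwa [inv_smul_smul] at h3
  apply hb C
  refine ⟨{w : H | Spt w bs y}.ncard + K.ncard + {w : H | Spt w bs y}.ncard, ?_⟩
  intro b hbC
  have h2 : ((b • (bs : Vtx H)).U \ (bs : Vtx H).U) ⊆
      ({w : H | Spt w bs y} ∪ K) ∪ ((fun w => b • w) '' {w : H | Spt w bs y}) := by
    rintro w ⟨h3, h4⟩
    have h5 : Spt w bs (b • bs) := by
      intro e
      exact h4 (e.2 h3)
    rcases spt_tri (y := y) h5 with h6 | h6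
    · exact Or.inl (Or.inl h6)
    · rcases spt_tri (y := b • y) h6 with h7 | h7
      · exact Or.inl (Or.inr (hsep b hbC w h7))
      · right
        rw [spt_inv] at h7
        exact ⟨b⁻¹ • w, spt_comm.1 h7, smul_inv_smul b w⟩
  have hDf := spt_fin (bs : Vtx H) y
  unfold ds
  calc ((b • (bs : Vtx H)).U \ (bs : Vtx H).U).ncard
      ≤ (({w : H | Spt w bs y} ∪ K) ∪ ((fun w => b • w) '' {w : H | Spt w bs y})).ncard :=
        Set.ncard_le_ncard h2 ((hDf.union hKf).union (hDf.image _))
    _ ≤ ({w : H | Spt w bs y} ∪ K).ncard + ((fun w => b • w) '' {w : H | Spt w bs y}).ncard := Set.ncard_union_le _ _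
    _ ≤ ({w : H | Spt w bs y}.ncard + K.ncard) + {w : H | Spt w bs y}.ncard := by
        refine Nat.add_le_add (Set.ncard_union_le _ _) ?_
        exact Set.ncard_image_le hDf
    _ = _ := rfl

end Pool.Agent.H94.CL
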