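import Mathlib

/-!
# CCB, (4): the kernel of the translation vectors is torsion

`siegel`: `d + 1` vectors in `ℤ ^ d` have a small relation. `small_rel`: in a set of vectors with entries at most `B` there is an
independent subset, all the others have small relations with it. `tors`: if the short products of the generators of an abelian group
with `τ = 0` are torsion then the kernel of `τ` is torsion.
-/

set_option autoImplicit false

namespace Pool.Agent.H94.CL

attribute [local instance] Matrix.seminormedAddCommGroup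

open Finset

/-- Siegel's lemma for `d + 1` vectors in `ℤ ^ d` -/
theorem siegel {d B : ℕ} {β : Type} [Fintype β] (hβ : Fintype.card β = d + 1) (hd : 0 < d) (w : β → Fin d → ℤ)
    (hB : ∀ k j, |w k j| ≤ B) (hB1 : 1 ≤ B) :
    ∃ t : β → ℤ, t ≠ 0 ∧ (∑ k, t k • w k = 0) ∧ ∀ k, |t k| ≤ (((d + 1) * B) ^ d : ℕ) := by
  classical
  obtain ⟨t, h1, h2, h3⟩ := Int.Matrix.exists_ne_zero_int_vec_norm_le (Matrix.of fun j k => w k j) (by
    rw [hβ, Fintype.card_fin]
    omega) (by rwa [Fintype.card_fin])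
  refine ⟨t, h1, ?_, ?_⟩
  · funext j
    have h4 := congrFun h2 j
    rw [Finset.sum_apply]
    simp only [Matrix.mulVec, dotProduct, Matrix.of_apply, Pi.zero_apply] at h4
    rw [Pi.zero_apply, ← h4]
    refine Finset.sum_congr rfl fun k _ => ?_
    rw [Pi.smul_apply, smul_eq_mul, mul_comm]
  · intro k
    have hA : ‖Matrix.of fun (j : Fin d) (k : β) => w k j‖ ≤ B := by
      rw [Matrix.norm_le_iff (Nat.cast_nonneg B)]
      intro i j
      rw [Int.norm_eq_abs, ← Int.cast_abs]
      exact_mod_cast hB j i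
    have h4 : ‖t‖ ≤ (((d + 1) * B) ^ d : ℕ) := by
      refine h3.trans ?_
      rw [hβ, Fintype.card_fin]
      have e1 : ((d : ℝ) / (((d + 1 : ℕ) : ℝ) - d)) = (d : ℕ) := by
        push_cast
        rw [add_sub_cancel_left, div_one]
      rw [e1, Real.rpow_natCast]
      push_cast
      refine pow_le_pow_left₀ (by positivity) ?_ d
      refine mul_le_mul_of_nonneg_left ?_ (by positivity)
      exact max_le (by exact_mod_cast hB1) hA
    have h5 : ‖t k‖ ≤ ‖t‖ := norm_le_pi_norm t k
    have h6 := h5.trans h4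
    rw [Int.norm_eq_abs, ← Int.cast_abs] at h6
    exact_mod_cast h6

/-- a set of integer vectors contains an independent subset with small relations -/
theorem small_rel {d B : ℕ} {ι : Type} (hd : 0 < d) (v : ι → Fin d → ℤ) (hB : ∀ i j, |v i j| ≤ B) (hB1 : 1 ≤ B) :
    ∃ b : Finset ι, b.card ≤ d ∧ (∀ m : ι → ℤ, ∑ k ∈ b, m k • v k = 0 → ∀ k ∈ b, m k = 0) ∧
      ∀ i, ∃ (c : ℤ) (m : ι → ℤ), c ≠ 0 ∧ |c| ≤ (((d + 1) * B) ^ d : ℕ) ∧ (∀ k, |m k| ≤ (((d + 1) * B) ^ d : ℕ)) ∧
        c • v i = ∑ k ∈ b, m k • v k := by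
  classical
  -- the integer vectors and the rational vectors
  obtain ⟨wz, hwz⟩ : ∃ wz : ι ⊕ Fin d → Fin d → ℤ, wz = Sum.elim v fun j => Pi.single j 1 := ⟨_, rfl⟩
  obtain ⟨w, hw⟩ : ∃ w : ι ⊕ Fin d → Fin d → ℚ, ∀ k j, w k j = (wz k j : ℚ) := ⟨fun k j => (wz k j : ℚ), fun _ _ => rfl⟩
  obtain ⟨b1, hb1t, -, hspan1, hind1⟩ := exists_linearIndepOn_extension (K := ℚ) (v := w) (linearIndepOn_empty ℚ w)
    (Set.empty_subset (Set.range Sum.inl))
  obtain ⟨b2, -, hb12, hspan2, hind2⟩ := exists_linearIndepOn_extension hind1 (Set.subset_univ b1)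
  have hsp : ⊤ ≤ Submodule.span ℚ (w '' b2) := by
    intro x _
    have h1 : ∀ j : Fin d, (Pi.single j (1 : ℚ) : Fin d → ℚ) ∈ Submodule.span ℚ (w '' b2) := by
      intro j
      refine hspan2 ⟨Sum.inr j, Set.mem_univ _, ?_⟩
      funext i
      rw [hw, hwz]
      show ((Pi.single j (1 : ℤ) : Fin d → ℤ) i : ℚ) = _
      by_cases h : i = j
      · rw [h, Pi.single_eq_same, Pi.single_eq_same, Int.cast_one]
      · rw [Pi.single_eq_of_ne h, Pi.single_eq_of_ne h, Int.cast_zero]
    have h2 : x = ∑ j, x j • (Pi.single j (1 : ℚ) : Fin d → ℚ) := by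
      rw [← pi_eq_sum_univ' x]
    rw [h2]
    exact Submodule.sum_mem _ fun j _ => Submodule.smul_mem _ _ (h1 j)
  have hsp' : ⊤ ≤ Submodule.span ℚ (Set.range fun k : b2 => w k) := by
    rw [← Set.image_eq_range]
    exact hsp
  let bs : Module.Basis b2 ℚ (Fin d → ℚ) := Module.Basis.mk hind2 hsp'
  have hfin : Finite b2 := Module.Finite.finite_basis bs
  have : Fintype b2 := Fintype.ofFinite b2
  have hcard : Fintype.card b2 = d := by
    rw [← Module.finrank_eq_card_basis bs, Module.finrank_fin_fun]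
  have hb2f : b2.Finite := Set.toFinite b2
  have hb1f : b1.Finite := hb2f.subset hb12
  have hindz : ∀ f : ι ⊕ Fin d → ℤ, (∀ k, k ∉ b2 → f k = 0) → ∑ k ∈ hb2f.toFinset, (f k : ℚ) • w k = 0 → ∀ k, f k = 0 := by
    intro f hf hs k
    by_cases hk : k ∈ b2
    · have h0 : LinearIndepOn ℚ w (hb2f.toFinset : Set (ι ⊕ Fin d)) := by
        rw [Set.Finite.coe_toFinset]
        exact hind2
      have h1 := linearIndepOn_finset_iff.1 h0 (fun k => (f k : ℚ)) hs k (hb2f.mem_toFinset.2 hk)
      exact_mod_cast h1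
    · exact hf k hk
  have hcast : ∀ f : ι ⊕ Fin d → ℤ, ∑ k ∈ hb2f.toFinset, f k • wz k = 0 → ∑ k ∈ hb2f.toFinset, (f k : ℚ) • w k = 0 := by
    intro f hf
    funext j
    have h1 := congrFun hf j
    rw [Finset.sum_apply] at h1 ⊢
    have h2 : ∑ k ∈ hb2f.toFinset, ((f k • wz k) j : ℤ) = 0 := h1
    show ∑ k ∈ hb2f.toFinset, (f k : ℚ) * w k j = 0
    have h3 : (∑ k ∈ hb2f.toFinset, ((f k • wz k) j : ℤ) : ℤ) = ((0 : ℤ)) := h2
    have h4 : ((∑ k ∈ hb2f.toFinset, ((f k • wz k) j : ℤ) : ℤ) : ℚ) = 0 := by rw [h3, Int.cast_zero]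
    rw [Int.cast_sum] at h4
    rw [← h4]
    refine Finset.sum_congr rfl fun k _ => ?_
    rw [hw, Pi.smul_apply, smul_eq_mul, Int.cast_mul]
  obtain ⟨b, hb⟩ : ∃ b : Finset ι, ∀ i, i ∈ b ↔ Sum.inl i ∈ b1 :=
    ⟨(hb1f.preimage (Sum.inl_injective.injOn)).toFinset, fun i => by simp⟩
  have hbimg : b.map ⟨Sum.inl, Sum.inl_injective⟩ = hb1f.toFinset := by
    ext k
    rw [Finset.mem_map, Set.Finite.mem_toFinset]
    constructor
    · rintro ⟨i, hi, rfl⟩
      exact (hb i).1 hi
    · intro hk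
      obtain ⟨i, rfl⟩ := hb1t hk
      exact ⟨i, (hb i).2 hk, rfl⟩
  have hsub : hb1f.toFinset ⊆ hb2f.toFinset := by
    intro k hk
    rw [Set.Finite.mem_toFinset] at hk ⊢
    exact hb12 hk
  have hsum : ∀ m : ι → ℤ, ∑ k ∈ b, m k • v k = ∑ k ∈ hb2f.toFinset, (if k ∈ b1 then Sum.elim m (fun _ => 0) k else 0) • wz k := by
    intro m
    rw [← Finset.sum_subset hsub (fun k _ hk => by
      rw [Set.Finite.mem_toFinset] at hk
      rw [if_neg hk, zero_smul]), ← hbimg, Finset.sum_map]
    refine Finset.sum_congr rfl fun i hi => ?_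
    have h1 : Sum.inl i ∈ b1 := (hb i).1 hi
    show m i • v i = (if Sum.inl i ∈ b1 then m i else 0) • wz (Sum.inl i)
    rw [if_pos h1, hwz]
    rfl
  refine ⟨b, ?_, ?_, ?_⟩
  · have h1 : b.card = hb1f.toFinset.card := by rw [← hbimg, Finset.card_map]
    rw [h1]
    refine (Finset.card_le_card hsub).trans ?_
    have h2 : hb2f.toFinset.card = Fintype.card b2 := by
      rw [← Set.ncard_eq_toFinset_card _ hb2f, Set.ncard_eq_toFinset_card', Set.toFinset_card]
    rw [h2, hcard]
  · intro m hm k hk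
    rw [hsum] at hm
    have h1 := hindz (fun k => if k ∈ b1 then Sum.elim m (fun _ => 0) k else 0) (fun k hk => if_neg fun h => hk (hb12 h))
      (hcast _ hm) (Sum.inl k)
    have h2 : Sum.inl k ∈ b1 := (hb k).1 hk
    have h3 : (if (Sum.inl k : ι ⊕ Fin d) ∈ b1 then m k else 0) = 0 := h1
    rwa [if_pos h2] at h3
  · intro i
    have hBw : ∀ k : Option b2, ∀ j, |(k.elim (v i) fun k => wz k) j| ≤ B := by
      intro k j
      rcases k with - | ⟨k, -⟩
      · exact hB i j
      · show |wz k j| ≤ B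
        rw [hwz]
        rcases k with k | k
        · exact hB k j
        · show |(Pi.single k (1 : ℤ) : Fin d → ℤ) j| ≤ B
          by_cases h : j = k
          · rw [h, Pi.single_eq_same, abs_one]
            exact_mod_cast hB1
          · rw [Pi.single_eq_of_ne h, abs_zero]
            exact Nat.cast_nonneg B
    obtain ⟨t, ht0, hts, htb⟩ := siegel (β := Option b2) (by rw [Fintype.card_option, hcard]) hd
      (fun k => k.elim (v i) fun k => wz k) hBw hB1
    rw [Fintype.sum_option] at hts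
    obtain ⟨T, hT⟩ : ∃ T : ι ⊕ Fin d → ℤ, ∀ k, T k = if h : k ∈ b2 then t (some ⟨k, h⟩) else 0 := ⟨_, fun _ => rfl⟩
    have hTs : ∑ k : b2, t (some k) • wz k = ∑ k ∈ hb2f.toFinset, T k • wz k := by
      rw [← Finset.sum_coe_sort hb2f.toFinset]
      refine Fintype.sum_equiv (Equiv.subtypeEquivRight fun k => (hb2f.mem_toFinset).symm) _ _ fun k => ?_
      show _ = T k • wz k
      rw [hT, dif_pos k.2]
    have hts' : t none • v i + ∑ k ∈ hb2f.toFinset, T k • wz k = 0 := by
      rw [← hTs]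
      exact hts
    -- the rational combination
    have hvi : w (Sum.inl i) ∈ Submodule.span ℚ (w '' b1) := hspan1 ⟨Sum.inl i, ⟨i, rfl⟩, rfl⟩
    obtain ⟨q, hq, hqi⟩ := (Finsupp.mem_span_image_iff_linearCombination ℚ).1 hvi
    have hqsum : w (Sum.inl i) = ∑ k ∈ hb2f.toFinset, q k • w k := by
      rw [← hqi, Finsupp.linearCombination_apply]
      refine Finsupp.sum_of_support_subset _ ?_ _ fun k _ => zero_smul _ _
      intro k hk
      rw [Set.Finite.mem_toFinset]
      exact hb12 ((Finsupp.mem_supported ℚ q).1 hq hk)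
    have hrel : ∑ k ∈ hb2f.toFinset, ((t none : ℚ) * q k + (T k : ℚ)) • w k = 0 := by
      have h1 : ∑ k ∈ hb2f.toFinset, ((t none : ℚ) * q k + (T k : ℚ)) • w k =
          (t none : ℚ) • w (Sum.inl i) + ∑ k ∈ hb2f.toFinset, (T k : ℚ) • w k := by
        rw [hqsum, Finset.smul_sum, ← Finset.sum_add_distrib]
        refine Finset.sum_congr rfl fun k _ => ?_
        rw [add_smul, mul_smul]
      rw [h1]
      funext j
      have h2 := congrFun hts' j
      rw [Pi.add_apply, Finset.sum_apply] at h2 ⊢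
      show (t none : ℚ) * w (Sum.inl i) j + ∑ k ∈ hb2f.toFinset, (T k : ℚ) * w k j = 0
      have h3 : t none * v i j + ∑ k ∈ hb2f.toFinset, T k * wz k j = 0 := h2
      have h4 : ((t none * v i j + ∑ k ∈ hb2f.toFinset, T k * wz k j : ℤ) : ℚ) = 0 := by rw [h3, Int.cast_zero]
      rw [Int.cast_add, Int.cast_mul, Int.cast_sum] at h4
      rw [← h4, hw]
      refine congrArg₂ (· + ·) ?_ ?_
      · rw [hwz]
        rfl
      · refine Finset.sum_congr rfl fun k _ => ?_
        rw [hw, Int.cast_mul]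
    have hzero : ∀ k ∈ b2, (t none : ℚ) * q k + (T k : ℚ) = 0 := by
      intro k hk
      have h0 : LinearIndepOn ℚ w (hb2f.toFinset : Set (ι ⊕ Fin d)) := by
        rw [Set.Finite.coe_toFinset]
        exact hind2
      exact linearIndepOn_finset_iff.1 h0 (fun k => (t none : ℚ) * q k + (T k : ℚ)) hrel k (hb2f.mem_toFinset.2 hk)
    have hT1 : ∀ k, k ∉ b1 → T k = 0 := by
      intro k hk
      by_cases h2 : k ∈ b2
      · have h3 : q k = 0 := by
          by_contra h4
          exact hk ((Finsupp.mem_supported ℚ q).1 hq (Finset.mem_coe.2 (Finsupp.mem_support_iff.2 h4)))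
        have h4 := hzero k h2
        rw [h3, mul_zero, zero_add] at h4
        exact_mod_cast h4
      · rw [hT, dif_neg h2]
    have ht : t none ≠ 0 := by
      intro h1
      apply ht0
      funext k
      rcases k with - | ⟨k, hk⟩
      · exact h1
      · have h4 := hzero k hk
        rw [h1, Int.cast_zero, zero_mul, zero_add] at h4
        have h5 : T k = 0 := by exact_mod_cast h4
        rw [hT, dif_pos hk] at h5
        exact h5
    have hTb : ∀ k, |T k| ≤ (((d + 1) * B) ^ d : ℕ) := by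
      intro k
      rw [hT]
      by_cases h : k ∈ b2
      · rw [dif_pos h]
        exact htb _
      · rw [dif_neg h, abs_zero]
        exact Nat.cast_nonneg _
    refine ⟨t none, fun k => - T (Sum.inl k), ht, htb none, fun k => by rw [abs_neg]; exact hTb _, ?_⟩
    rw [hsum]
    have h1 : t none • v i = - ∑ k ∈ hb2f.toFinset, T k • wz k := eq_neg_of_add_eq_zero_left hts'
    rw [h1, ← Finset.sum_neg_distrib]
    refine Finset.sum_congr rfl fun k _ => ?_
    by_cases h2 : k ∈ b1
    · rw [if_pos h2, ← neg_smul]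
      obtain ⟨k', rfl⟩ := hb1t h2
      rfl
    · rw [if_neg h2, hT1 k h2, zero_smul, neg_zero]

end Pool.Agent.H94.CL
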