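import Pool.Agent.H37.CC.Defs

/-!
# CCC, chapter LOCAL: literal interfaces of the parts

`Wt P y t`: the half-spaces of the region which separate `y` from a vertex of the region at distance at most `t`
(this is `(Cf t P y).2.2`). Targets: `zer` is (3.7), `bdo` is (3.8).
-/

set_option autoImplicit false

namespace Pool.Agent.H94.CL

open scoped Pointwise
open Pool.Agent.H37.CC

variable {G H : Type} [Group G] [PartialOrder H] [Bas H] [MulAction G H] [BAct G H]

/-- the half-spaces of the region which separate `y` from a vertex of the region at distance at most `t` -/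
def Wt (P : Set (Vtx H) × Set H) (y : Vtx H) (t : ℕ) : Set H := {w | w ∈ P.2 ∧ ∃ z ∈ P.1, ds y z ≤ t ∧ Spt w y z}

end Pool.Agent.H94.CL
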