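import Pool.Agent.H94.CL.Wrd

/-!
# CCC, chapter LOCAL: (3.7), words with exponent sums zero
-/

set_option autoImplicit false

namespace Pool.Agent.H94.CL

open scoped Pointwise
open Pool.Agent.H37.CC

variable {G H : Type} [Group G] [PartialOrder H] [Bas H] [MulAction G H] [BAct G H]

/-- (3.7): `X` is a set of letters, closed under inverses: near symmetries which move every local half-space to a comparable one; `l` is
a word of length at most `L` in these letters with all exponent sums zero. Then no half-space of the region has type `+` -/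
theorem zer {n : ℕ} (hd : Dim H n) {P : Set (Vtx H) × Set H} (hP : Rgn P) {y : Vtx H} (hy : y ∈ P.1) {B R L : ℕ} {X : Set G}
    (hX : ∀ x ∈ X, x⁻¹ ∈ X) (hT : ∀ x ∈ X, x ∈ Tb G B R P y)
    (hN : ∀ x ∈ X, ∀ w ∈ Wt P y ((L + 1) * B), x • w ≤ w ∨ w ≤ x • w)
    (hR : (n.factorial + n + 10) * ((L + 1) * B) ≤ R) {l : List G} (hl : ∀ x ∈ l, x ∈ X) (hlen : l.length ≤ L)
    (hbal : ∀ f : G → ℤ, (∀ x ∈ X, f x⁻¹ = - f x) → (l.map f).sum = 0) :
    ∀ w ∈ P.2, ¬ l.prod ^ n.factorial • w < w := by
  sorry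

end Pool.Agent.H94.CL
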